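import Pool.Agent.H83.VU.Targets

set_option autoImplicit false

open Finset Pool.Agent.H83.VU

namespace Pool.Agent.H69.VU

/-- the numerical inequalities -/
theorem num_aux (L : ℝ) (hL : (2 : ℝ) ^ (20 : ℕ) ≤ L) :
    L ^ (1 / 5 : ℝ) + 3 ≤ L / 2 ∧ L ^ (1 / 5 : ℝ) + 1 ≤ L ^ (1 / 4 : ℝ) := by
  have hL0 : 0 ≤ L := le_trans (by positivity) hL
  set t : ℝ := L ^ (1 / 20 : ℝ) with ht
  have ht0 : 0 ≤ t := Real.rpow_nonneg hL0 _
  have h20 : t ^ (20 : ℕ) = L := by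
    rw [ht, ← Real.rpow_natCast, ← Real.rpow_mul hL0]
    norm_num
  have h5 : L ^ (1 / 5 : ℝ) = t ^ (4 : ℕ) := by
    rw [ht, ← Real.rpow_natCast, ← Real.rpow_mul hL0]
    norm_num
  have h4 : L ^ (1 / 4 : ℝ) = t ^ (5 : ℕ) := by
    rw [ht, ← Real.rpow_natCast, ← Real.rpow_mul hL0]
    norm_num
  have ht2 : 2 ≤ t := by
    by_contra hlt
    push Not at hlt
    have : t ^ (20 : ℕ) < 2 ^ (20 : ℕ) := pow_lt_pow_left₀ hlt ht0 (by norm_num)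
    linarith
  have h16 : (16 : ℝ) ≤ t ^ (4 : ℕ) := by
    calc (16 : ℝ) = 2 ^ (4 : ℕ) := by norm_num
      _ ≤ t ^ (4 : ℕ) := pow_le_pow_left₀ (by norm_num) ht2 _
  have h16' : (65536 : ℝ) ≤ t ^ (16 : ℕ) := by
    calc (65536 : ℝ) = 2 ^ (16 : ℕ) := by norm_num
      _ ≤ t ^ (16 : ℕ) := pow_le_pow_left₀ (by norm_num) ht2 _
  rw [h5, h4]
  constructor
  · rw [← h20]
    have : t ^ (20 : ℕ) = t ^ (4 : ℕ) * t ^ (16 : ℕ) := by ring
    rw [this]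
    nlinarith
  · have : t ^ (5 : ℕ) = t ^ (4 : ℕ) * t := by ring
    rw [this]
    nlinarith

theorem pf_ALL (hVIN : T_VIN) (hSML : T_SML) : T_ALL := by
  obtain ⟨N₁, hN₁⟩ := hVIN
  refine ⟨max N₁ (⌈Real.exp ((2 : ℝ) ^ (20 : ℕ))⌉₊ + 1), fun N N' hN hNN' hN' u hu => ?_⟩
  have hNN₁ : N₁ ≤ N := (le_max_left _ _).trans hN
  have hN2 : ⌈Real.exp ((2 : ℝ) ^ (20 : ℕ))⌉₊ + 1 ≤ N := (le_max_right _ _).trans hN
  have hNpos : 1 ≤ N := by omega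
  have hNr : (1 : ℝ) ≤ N := by exact_mod_cast hNpos
  have hN0 : (0 : ℝ) < N := by linarith
  have hexp : Real.exp ((2 : ℝ) ^ (20 : ℕ)) ≤ N := by
    calc Real.exp ((2 : ℝ) ^ (20 : ℕ)) ≤ (⌈Real.exp ((2 : ℝ) ^ (20 : ℕ))⌉₊ : ℝ) :=
          Nat.le_ceil _
      _ ≤ N := by exact_mod_cast (by omega : ⌈Real.exp ((2 : ℝ) ^ (20 : ℕ))⌉₊ ≤ N)
  set L : ℝ := Real.log N with hLdef
  have hL : (2 : ℝ) ^ (20 : ℕ) ≤ L := by
    rw [hLdef, Real.le_log_iff_exp_le hN0]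
    exact hexp
  obtain ⟨hq1, hq2⟩ := num_aux L hL
  have hsq : (N : ℝ) ^ (1 / 2 : ℝ) = Real.exp (L / 2) := by
    rw [Real.rpow_def_of_pos hN0, ← hLdef]
    congr 1
    ring
  have hNexp : (N : ℝ) = Real.exp L := by rw [hLdef, Real.exp_log hN0]
  -- `8 sqrt N ≤ N exp (- L^(1/5))`
  have hlog8 : (8 : ℝ) ≤ Real.exp 3 := by
    have h1 : (2 : ℝ) ≤ Real.exp 1 := by
      have := Real.add_one_le_exp (1 : ℝ)
      linarith
    calc (8 : ℝ) = 2 ^ 3 := by norm_num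
      _ ≤ Real.exp 1 ^ 3 := pow_le_pow_left₀ (by norm_num) h1 _
      _ = Real.exp 3 := by
          rw [← Real.exp_nat_mul]
          norm_num
  have hkey : 8 * (N : ℝ) ^ (1 / 2 : ℝ) ≤ N * Real.exp (-(L ^ (1 / 5 : ℝ))) := by
    rw [hsq]
    calc 8 * Real.exp (L / 2) ≤ Real.exp 3 * Real.exp (L / 2) :=
          mul_le_mul_of_nonneg_right hlog8 (Real.exp_pos _).le
      _ = Real.exp (3 + L / 2) := (Real.exp_add _ _).symm
      _ ≤ Real.exp (L + -(L ^ (1 / 5 : ℝ))) := Real.exp_le_exp.2 (by linarith)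
      _ = N * Real.exp (-(L ^ (1 / 5 : ℝ))) := by rw [Real.exp_add, ← hNexp]
  have hsqnn : 0 ≤ (N : ℝ) ^ (1 / 2 : ℝ) := Real.rpow_nonneg hN0.le _
  rcases lt_or_ge |u| ((N : ℝ) ^ (1 / 2 : ℝ)) with hsmall | hlarge
  · refine (hSML N N' u hNpos hNN').trans ?_
    have h1 : Real.log ((N' : ℝ) / N) ≤ 2 := by
      have h2 : (N' : ℝ) / N ≤ 3 := by
        rw [div_le_iff₀ hN0]
        exact_mod_cast hN'
      have h3 : 0 < (N' : ℝ) / N := by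
        have : (0 : ℝ) < N' := lt_of_lt_of_le hN0 (by exact_mod_cast hNN')
        positivity
      have h4 := Real.log_le_sub_one_of_pos h3
      linarith
    have h5 : 0 ≤ Real.log ((N' : ℝ) / N) := by
      refine Real.log_nonneg ?_
      rw [le_div_iff₀ hN0, one_mul]
      exact_mod_cast hNN'
    calc |u| * Real.log ((N' : ℝ) / N) ≤ (N : ℝ) ^ (1 / 2 : ℝ) * 2 :=
          mul_le_mul hsmall.le h1 h5 hsqnn
      _ ≤ 8 * (N : ℝ) ^ (1 / 2 : ℝ) := by linarith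
      _ ≤ _ := hkey
  · have h1 := hN₁ N N' hNN₁ hNN' hN' u hlarge hu
    have hsqpos : 0 < (N : ℝ) ^ (1 / 2 : ℝ) := Real.rpow_pos_of_pos hN0 _
    have hupos : 0 < |u| := lt_of_lt_of_le hsqpos hlarge
    have h2 : |u| ≤ ‖(1 + (u : ℂ) * Complex.I)‖ := by
      have h3 := Complex.abs_im_le_norm (1 + (u : ℂ) * Complex.I)
      simpa using h3
    have h3 : ‖((N' : ℂ) * ni u N' - (N : ℂ) * ni u N)‖ ≤ 4 * N := by
      refine (norm_sub_le _ _).trans ?_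
      rw [norm_mul, norm_mul, norm_ni, norm_ni, mul_one, mul_one, Complex.norm_natCast,
        Complex.norm_natCast]
      have : (N' : ℝ) ≤ 3 * N := by exact_mod_cast hN'
      linarith
    have h4 : ‖((N' : ℂ) * ni u N' - (N : ℂ) * ni u N) / (1 + (u : ℂ) * Complex.I)‖ ≤
        4 * (N : ℝ) ^ (1 / 2 : ℝ) := by
      rw [norm_div]
      have h5 : (N : ℝ) = (N : ℝ) ^ (1 / 2 : ℝ) * (N : ℝ) ^ (1 / 2 : ℝ) := by
        rw [hsq, ← Real.exp_add, ← add_halves L] at *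
        rw [hNexp]
        congr 1
        ring
      rw [div_le_iff₀ (lt_of_lt_of_le hupos h2)]
      calc ‖((N' : ℂ) * ni u N' - (N : ℂ) * ni u N)‖ ≤ 4 * N := h3
        _ = 4 * (N : ℝ) ^ (1 / 2 : ℝ) * (N : ℝ) ^ (1 / 2 : ℝ) := by
            rw [mul_assoc, ← h5]
        _ ≤ 4 * (N : ℝ) ^ (1 / 2 : ℝ) * ‖(1 + (u : ℂ) * Complex.I)‖ :=
            mul_le_mul_of_nonneg_left (hlarge.trans h2) (by positivity)
    have h6 : (N : ℝ) * Real.exp (-(L ^ (1 / 4 : ℝ))) ≤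
        1 / 2 * (N * Real.exp (-(L ^ (1 / 5 : ℝ)))) := by
      have h7 : Real.exp (-(L ^ (1 / 4 : ℝ))) ≤ 1 / 2 * Real.exp (-(L ^ (1 / 5 : ℝ))) := by
        have h8 : Real.exp (-(L ^ (1 / 4 : ℝ))) ≤ Real.exp (-1 + -(L ^ (1 / 5 : ℝ))) :=
          Real.exp_le_exp.2 (by linarith)
        rw [Real.exp_add] at h8
        have h9 : Real.exp (-1) ≤ 1 / 2 := by
          rw [Real.exp_neg, one_div]
          refine inv_anti₀ (by norm_num) ?_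
          have := Real.add_one_le_exp (1 : ℝ)
          linarith
        exact h8.trans (mul_le_mul_of_nonneg_right h9 (Real.exp_pos _).le)
      calc (N : ℝ) * Real.exp (-(L ^ (1 / 4 : ℝ))) ≤
            N * (1 / 2 * Real.exp (-(L ^ (1 / 5 : ℝ)))) := mul_le_mul_of_nonneg_left h7 hN0.le
        _ = _ := by ring
    calc ‖∑ n ∈ Ioc N N', ni u n -
        ((N' : ℂ) * ni u N' - (N : ℂ) * ni u N) / (1 + (u : ℂ) * Complex.I)‖ ≤
        ‖∑ n ∈ Ioc N N', ni u n‖ +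
          ‖((N' : ℂ) * ni u N' - (N : ℂ) * ni u N) / (1 + (u : ℂ) * Complex.I)‖ :=
          norm_sub_le _ _
      _ ≤ 1 / 2 * (N * Real.exp (-(L ^ (1 / 5 : ℝ)))) + 4 * (N : ℝ) ^ (1 / 2 : ℝ) :=
          add_le_add (h1.trans h6) h4
      _ ≤ N * Real.exp (-(L ^ (1 / 5 : ℝ))) := by linarith

end Pool.Agent.H69.VU
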